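import Pool.Agent.Helper54.LS.KerDefs

/-! # Module K2: sizes of the band limited weights -/

namespace Pool.Agent.Helper54.LS

open Real Filter Topology Pool.Agent.Helper42.LS

theorem K2_wt_nonneg (b : ℝ) (j : ℕ) : 0 ≤ wt b j := by
  unfold wt
  have := Real.cos_le_one (2 * π * (b * j))
  have h : 0 ≤ 1 - Real.cos (2 * π * (b * j)) := by linarith
  positivity

theorem K2_cube_le (b : ℝ) (j : ℕ) : (1 - Real.cos (2 * π * (b * j))) ^ 3 ≤ 8 := by
  have h1 := Real.cos_le_one (2 * π * (b * j))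
  have h2 := Real.neg_one_le_cos (2 * π * (b * j))
  have h3 : (1 - Real.cos (2 * π * (b * j))) ^ 3 ≤ 2 ^ 3 :=
    pow_le_pow_left₀ (by linarith) (by linarith) 3
  linarith

theorem K2_cube_le' (b : ℝ) (j : ℕ) :
    (1 - Real.cos (2 * π * (b * j))) ^ 3 ≤ 2 * (2 * π * (b * j)) ^ 2 := by
  have h1 := Real.cos_le_one (2 * π * (b * j))
  have h2 := Real.neg_one_le_cos (2 * π * (b * j))
  have h3 := Real.one_sub_sq_div_two_le_cos (x := 2 * π * (b * j))
  have h4 : (1 - Real.cos (2 * π * (b * j))) ^ 2 ≤ 2 ^ 2 :=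
    pow_le_pow_left₀ (by linarith) (by linarith) 2
  have h5 : (1 - Real.cos (2 * π * (b * j))) ^ 3 =
    (1 - Real.cos (2 * π * (b * j))) ^ 2 * (1 - Real.cos (2 * π * (b * j))) := by ring
  rw [h5]
  have h6 : (1 - Real.cos (2 * π * (b * j))) ≤ (2 * π * (b * j)) ^ 2 / 2 := by linarith
  calc _ ≤ (2 ^ 2 : ℝ) * ((2 * π * (b * j)) ^ 2 / 2) := by
        apply mul_le_mul h4 h6 (by linarith) (by norm_num)
    _ = _ := by ring

theorem K2_summable_wt (b : ℝ) : Summable (wt b) := by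
  have h1 : Summable (fun j : ℕ => (8 : ℝ) * (1 / (j : ℝ) ^ 4)) :=
    (Real.summable_one_div_nat_pow.mpr (by norm_num)).mul_left 8
  refine Summable.of_nonneg_of_le (K2_wt_nonneg b) ?_ h1
  intro j
  unfold wt
  rw [mul_one_div]
  exact div_le_div_of_nonneg_right (K2_cube_le b j) (by positivity)

theorem K2_wt_mul (b : ℝ) (j : ℕ) :
    wt b j * (j : ℝ) ^ 2 = (1 - Real.cos (2 * π * (b * j))) ^ 3 / (j : ℝ) ^ 2 := by
  unfold wt
  rcases Nat.eq_zero_or_pos j with rfl | hj
  · simp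
  · have : (j : ℝ) ≠ 0 := by positivity
    field_simp

theorem K2_summable_mul (b : ℝ) : Summable (fun j : ℕ => wt b j * (j : ℝ) ^ 2) := by
  have h1 : Summable (fun j : ℕ => (8 : ℝ) * (1 / (j : ℝ) ^ 2)) :=
    (Real.summable_one_div_nat_pow.mpr (by norm_num)).mul_left 8
  refine Summable.of_nonneg_of_le (fun j => mul_nonneg (K2_wt_nonneg b j) (by positivity)) ?_ h1
  intro j
  rw [K2_wt_mul, mul_one_div]
  exact div_le_div_of_nonneg_right (K2_cube_le b j) (by positivity)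

theorem K2_lower (b : ℝ) (hb : 0 < b) (hb' : b ≤ 1 / 6) : 1 * b ^ 3 ≤ WW b := by
  unfold WW
  set N : ℕ := ⌈1 / (4 * b)⌉₊ with hN
  have hN1 : 1 / (4 * b) ≤ N := Nat.le_ceil _
  have hN2 : (N : ℝ) < 1 / (4 * b) + 1 := Nat.ceil_lt_add_one (by positivity)
  have hb4 : 1 / 4 ≤ b * N := by
    have := mul_le_mul_of_nonneg_left hN1 hb.le
    have e : b * (1 / (4 * b)) = 1 / 4 := by field_simp
    rw [e] at this
    exact this
  have hb5 : b * N < 1 / 4 + b := by
    have := mul_lt_mul_of_pos_left hN2 hb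
    have e : b * (1 / (4 * b) + 1) = 1 / 4 + b := by field_simp
    rw [e] at this
    exact this
  have hterm : ∀ j ∈ Finset.Ico N (2 * N), b ^ 4 * 5 ≤ wt b j := by
    intro j hj
    rw [Finset.mem_Ico] at hj
    have hj1 : (N : ℝ) ≤ j := by exact_mod_cast hj.1
    have hj2 : (j : ℝ) + 1 ≤ 2 * N := by exact_mod_cast hj.2
    have h1 : 1 / 4 ≤ b * j := hb4.trans (mul_le_mul_of_nonneg_left hj1 hb.le)
    have h2 : b * j ≤ 2 / 3 := by
      have : b * ((j : ℝ) + 1) ≤ b * (2 * N) := mul_le_mul_of_nonneg_left hj2 hb.le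
      nlinarith
    have hc : Real.cos (2 * π * (b * j)) ≤ 0 := by
      apply Real.cos_nonpos_of_pi_div_two_le_of_le
      · nlinarith [Real.pi_pos]
      · nlinarith [Real.pi_pos]
    have hj0 : (0 : ℝ) < j := by
      by_contra h
      have : (j : ℝ) = 0 := le_antisymm (not_lt.mp h) (by positivity)
      rw [this] at h1
      norm_num at h1
    have h3 : 1 ≤ (1 - Real.cos (2 * π * (b * j))) ^ 3 := one_le_pow₀ (by linarith)
    unfold wt
    rw [le_div_iff₀ (by positivity)]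
    have h4 : b ^ 4 * 5 * (j : ℝ) ^ 4 = 5 * (b * j) ^ 4 := by ring
    rw [h4]
    have h5 : (b * j) ^ 4 ≤ (2 / 3 : ℝ) ^ 4 := pow_le_pow_left₀ (by positivity) h2 4
    have h6 : (5 : ℝ) * (2 / 3) ^ 4 ≤ 1 := by norm_num
    linarith
  calc 1 * b ^ 3 ≤ ((2 * N - N : ℕ) : ℝ) * (b ^ 4 * 5) := by
        have e : 2 * N - N = N := by omega
        rw [e]
        have : b ^ 3 * (1 / 4) ≤ b ^ 3 * (b * N) := mul_le_mul_of_nonneg_left hb4 (by positivity)
        have e2 : (N : ℝ) * (b ^ 4 * 5) = 5 * (b ^ 3 * (b * N)) := by ring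
        have e3 : 0 < b ^ 3 := by positivity
        rw [e2]
        linarith
    _ = ∑ j ∈ Finset.Ico N (2 * N), b ^ 4 * 5 := by
        rw [Finset.sum_const, Nat.card_Ico, nsmul_eq_mul]
    _ ≤ ∑ j ∈ Finset.Ico N (2 * N), wt b j := Finset.sum_le_sum hterm
    _ ≤ ∑' j, wt b j := (K2_summable_wt b).sum_le_tsum _ (fun j _ => K2_wt_nonneg b j)

theorem K2_upper (b : ℝ) (hb : 0 < b) : VV b ≤ 32 * π ^ 2 * b := by
  unfold VV
  have hpi : (1 : ℝ) ≤ π ^ 2 := by
    have := Real.pi_gt_three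
    nlinarith
  have hstep : ∀ j : ℕ, wt b (j + 1) * ((j + 1 : ℕ) : ℝ) ^ 2 ≤
      32 * π ^ 2 * b * (1 / (1 + b * j) - 1 / (1 + b * (j + 1))) := by
    intro j
    have hj : (0 : ℝ) ≤ b * j := by positivity
    have e : 1 / (1 + b * j) - 1 / (1 + b * (j + 1)) = b / ((1 + b * j) * (1 + b * (j + 1))) := by
      have h1 : 1 + b * j ≠ 0 := by positivity
      have h2 : 1 + b * ((j : ℝ) + 1) ≠ 0 := by positivity
      field_simp
      ring
    rw [e, K2_wt_mul]
    have c1 := K2_cube_le b (j + 1)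
    have c2 := K2_cube_le' b (j + 1)
    push_cast at c1 c2 ⊢
    rw [← mul_div_assoc, div_le_div_iff₀ (by positivity) (by positivity)]
    set x : ℝ := b * ((j : ℝ) + 1) with hx
    have hx0 : 0 < x := by positivity
    have hjx : 1 + b * j ≤ 1 + x := by rw [hx]; nlinarith
    set t := (1 - Real.cos (2 * π * x)) ^ 3 with ht
    have ht0 : 0 ≤ t := by
      have := Real.cos_le_one (2 * π * x)
      have h : 0 ≤ 1 - Real.cos (2 * π * x) := by linarith
      positivity
    have h1 : t * ((1 + b * j) * (1 + x)) ≤ t * (1 + x) ^ 2 := by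
      apply mul_le_mul_of_nonneg_left _ ht0
      rw [sq]
      exact mul_le_mul_of_nonneg_right hjx (by positivity)
    have h2 : 32 * π ^ 2 * b * b * ((j : ℝ) + 1) ^ 2 = 32 * π ^ 2 * x ^ 2 := by rw [hx]; ring
    rw [h2]
    refine h1.trans ?_
    rcases le_total x 1 with hx1 | hx1
    · have h3 : (1 + x) ^ 2 ≤ 4 := by nlinarith
      calc t * (1 + x) ^ 2 ≤ (2 * (2 * π * x) ^ 2) * 4 :=
            mul_le_mul c2 h3 (by positivity) (by positivity)
        _ = 32 * π ^ 2 * x ^ 2 := by ring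
    · have h3 : (1 + x) ^ 2 ≤ 4 * x ^ 2 := by nlinarith
      calc t * (1 + x) ^ 2 ≤ 8 * (4 * x ^ 2) :=
            mul_le_mul c1 h3 (by positivity) (by positivity)
        _ = 32 * 1 * x ^ 2 := by ring
        _ ≤ 32 * π ^ 2 * x ^ 2 := by
            apply mul_le_mul_of_nonneg_right _ (by positivity)
            linarith
  have hpart : ∀ n : ℕ, ∑ j ∈ Finset.range (n + 1), wt b j * (j : ℝ) ^ 2 ≤
      32 * π ^ 2 * b * (1 - 1 / (1 + b * n)) := by
    intro n
    induction n with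
    | zero => simp
    | succ n ih =>
      rw [Finset.sum_range_succ]
      have := hstep n
      push_cast at this ih ⊢
      linarith
  apply Real.tsum_le_of_sum_range_le (fun j => mul_nonneg (K2_wt_nonneg b j) (by positivity))
  intro n
  rcases n with _ | n
  · simp; positivity
  · refine (hpart n).trans ?_
    have h1 : 0 ≤ 1 / (1 + b * n) := by positivity
    have h2 : 0 ≤ 32 * π ^ 2 * b := by positivity
    nlinarith

theorem st_K2 : ST_K2 := by
  refine ⟨1, 32 * π ^ 2, one_pos, by positivity, fun b hb hb' => ⟨K2_summable_wt b,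
    K2_summable_mul b, K2_lower b hb hb', K2_upper b hb⟩⟩

end Pool.Agent.Helper54.LS
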